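import Pool.Agent.L5helper73.Inf.P

/-!
# Logarithms of primes: relations of growing degree in infinitely many windows

For each `i = 0, 1, 2, …` we consider a window `(N_i, N_i + H_i]` of integers, for example such windows which contain many
primes; the lengths `H_i` are arbitrary, and `N_i ≥ τ_i`. We prove: there are sets `S_i` of at most
`ψ(0) + … + ψ(i) + H_0 + … + H_(i-1) + 2` exceptional integers (this bound does not depend on `H_i`) such that the logarithms
of all the other integers, in particular of all the other primes, of all the windows together are algebraically independent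
in bounded degree: for each `k`, all relations of degree `≤ ψ(k)` over number fields of degree `≤ ψ(k)` (there is no bound
for the heights) between the logarithms of arbitrarily many of them from the windows `i ≥ k` are trivial, even relative to
`2 π i`, the first `ψ(k)` terms of a given sequence of complex numbers and the logarithms of all the integers of the windows
`i < k`, exceptional or not. Here `ψ` is any function.

In the starting hand-in `PrimesInWindows` there is one window, and `k` primes at a time (`E` depends on `k`).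
-/

set_option autoImplicit false

namespace Pool.Agent.Results.MP_d171e3_nt.InfiniteWindows

/-- the known numbers: `2 π i`, the first `D` terms of the sequence `c`, the logarithms of all the integers of the windows
`(N_i, N_i + H_i]`, `i < k` -/
def known (c : ℕ → ℂ) (N H : ℕ → ℕ) (D k : ℕ) : Set ℂ :=
  {x | x = 2 * Real.pi * Complex.I ∨ (∃ i < D, x = c i) ∨
    ∃ i < k, ∃ n : ℕ, N i < n ∧ n ≤ N i + H i ∧ x = ((Real.log n : ℝ) : ℂ)}

/-- the logarithms of the integers `n ∈ I` are algebraically independent in degree `D` over the set `A` of numbers: each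
polynomial of degree `≤ D` over a number field of degree `≤ D` in elements of `A` and the logarithms of the `n ∈ I`, which
vanishes, vanishes for all values of the variables which stand for the logarithms -/
def Independent (A : Set ℂ) (I : Set ℕ) (D : ℕ) : Prop :=
  ∀ (K : Type) [Field K] [NumberField K] (φ : K →+* ℂ) (P : MvPolynomial (A ⊕ I) K),
    Module.finrank ℚ K ≤ D → P.totalDegree ≤ D →
    (P.map φ).eval (Sum.elim (fun x : A => (x : ℂ)) fun n : I => ((Real.log (n : ℕ) : ℝ) : ℂ)) = 0 →
    ∀ X : I → ℂ, (P.map φ).eval (Sum.elim (fun x : A => (x : ℂ)) X) = 0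

open Pool.Agent.L5helper73.Inf

/-- Let `ψ` be any function and `H_i` any numbers. There are `τ_i` such that for all `N_i ≥ τ_i` and all complex sequences
`c` there are sets `S_i` of integers in `(N_i, N_i + H_i]`, `|S_i| ≤ ψ(0) + … + ψ(i) + H_0 + … + H_(i-1) + 2`, such that for
all `k` and all sets `I` (finite or infinite) of integers, each of which is in a window `(N_i, N_i + H_i]` with `i ≥ k`, but
not in `S_i`, the logarithms of the elements of `I` are algebraically independent in degree `ψ(k)` over the set of the
numbers `2 π i`, `c_l`, `l < ψ(k)`, and `log n`, `n ∈ (N_i, N_i + H_i]`, `i < k`. -/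
theorem result (ψ H : ℕ → ℕ) : ∃ τ : ℕ → ℕ, ∀ N : ℕ → ℕ, (∀ i, τ i ≤ N i) → ∀ c : ℕ → ℂ,
    ∃ S : ℕ → Finset ℕ, (∀ i, S i ⊆ Finset.Ioc (N i) (N i + H i)) ∧
      (∀ i, (S i).card ≤ ∑ l ∈ Finset.range (i + 1), ψ l + ∑ l ∈ Finset.range i, H l + 2) ∧
      ∀ (k : ℕ) (I : Set ℕ), (∀ n ∈ I, ∃ i, k ≤ i ∧ N i < n ∧ n ≤ N i + H i ∧ n ∉ S i) →
        Independent (known c N H (ψ k) k) I (ψ k) := by
  classical
  obtain ⟨τ, hτ⟩ := mainP ψ H
  refine ⟨τ, fun N hN c => ?_⟩
  obtain ⟨S, hS1, hS2, δ, hδ, W, hW, hA⟩ := hτ N hN c
  refine ⟨S, hS1, hS2, fun k I hI => ?_⟩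
  choose w hw1 hw2 hw3 hw4 using hI
  set io : I → Σ j : ℕ, Wn (N j) (H j) (S j) := fun n =>
    ⟨w n n.2, ⟨n, Finset.mem_sdiff.2 ⟨Finset.mem_Ioc.2 ⟨hw2 n n.2, hw3 n n.2⟩, hw4 n n.2⟩⟩⟩ with hio
  have hinj : Function.Injective io := by
    intro n n' h
    have h1 : (((io n).2 : Wn _ _ _) : ℕ) = (((io n').2 : Wn _ _ _) : ℕ) := by rw [h]
    exact Subtype.ext h1
  intro K _ _ φ P hK hP h0 X
  have h1 := hA.relK (io := io) (k := k) (e := ψ k) (fun x => ⟨Set.mem_univ _, hw1 _ x.2⟩)
    (fun j _ hkj => hδ k j hkj) (κ := known c N H (ψ k) k) (hW k) K hK φ P hP (by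
      rw [MvPolynomial.aeval_eq_eval]
      exact h0) (fun y => Function.extend io X 0 y) (fun j => Set.mem_univ _)
  have h2 : (fun y => Function.extend io X 0 y) ∘ io = X := by
    funext x
    exact hinj.extend_apply X 0 x
  rw [h2, MvPolynomial.aeval_eq_eval] at h1
  exact h1

end Pool.Agent.Results.MP_d171e3_nt.InfiniteWindows
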