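import Mathlib
import Pool.Agent.L5helper52.WK.Log
import Pool.Agent.L5helper52.LL.Fac

set_option autoImplicit false

/-!
# Logarithms of the primes of short windows over simultaneously Liouville fields

A subfield `K` of `ℂ` is simultaneously Liouville if any finitely many of its elements have simultaneous
rational approximations of every order; there is such a field which contains all the numbers
`∑_{n ∈ A} 10 ^ (-n!)`, `A ⊆ ℕ`.

For all `q`, `k`, `D`, `δ` there is a number `E` such that for all `N`, `H` with `(H + 2) ^ E ≤ N`, every
simultaneously Liouville field `K` and all complex numbers `w_1, …, w_q` there is a set `S` of **at most `q + 1`**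
integers with the following property. Let `p_1, …, p_k` be any distinct integers (for example primes) in `(N, N + H]` which are
not in `S`, and let `L` be an extension of `K` of degree at most `D`. Then every relation of degree at most `δ` between
`log p_1, …, log p_k`, with coefficients in `L[w_1, …, w_q]`, is trivial: the polynomial is zero after the substitution of the
numbers `w_1, …, w_q`. For `q = 0`: all but at most one integer of the window.

Neither `E` nor the bound for the number of exceptions depends on `K`. For `K = ℚ` this is the starting result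
`PrimesInWindows` of this problem.

Proof. The lower bound `Pool.Agent.R351.GF.log_quant` for polynomials in the numbers `log (1 - g / t)` shows that there are no
relations of bounded degree between them over `K`; then the elimination of the constants `w_1, …, w_q, log t` by Hilbert
functions (`Pool.Agent.Y916`) is carried out over the base field `K`.
-/

namespace Pool.Agent.Results.MP_d171e3_nt.LiouvilleWindows

/-- Any finitely many elements of `K` have simultaneous rational approximations of every order: for
every exponent `w` there are arbitrarily large `q` with `|q x - p| < q ^ (-w)` for every `x` in the finite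
set, with an integer `p` which depends on `x`. -/
def SimLiouville (K : Subfield ℂ) : Prop :=
  ∀ s : Finset ℂ, (∀ x ∈ s, x ∈ K) → ∀ w q₀ : ℕ, ∃ q : ℕ, q₀ ≤ q ∧ 1 ≤ q ∧
    ∀ x ∈ s, ∃ p : ℤ, ‖(q : ℂ) * x - p‖ < 1 / (q : ℝ) ^ w

/-- `∑_{n ∈ A} 10 ^ (-n!)` -/
noncomputable def liouvilleSum (A : Set ℕ) : ℝ :=
  ∑' n : ℕ, A.indicator (fun n => 1 / (10 : ℝ) ^ n.factorial) n

/-- (1) Some simultaneously Liouville field contains all the numbers `∑_{n ∈ A} 10 ^ (-n!)`. (2) For all `q`, `k`, `D`, `δ`
there is `E` such that for all `N`, `H` with `(H + 2) ^ E ≤ N`, every simultaneously Liouville field `K` and all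
`w_1, …, w_q` there is a set `S` of at most `q + 1` integers such that for all distinct integers `p_1, …, p_k` in
`(N, N + H]` outside `S` and every extension `L` of `K` of degree at most `D`, every polynomial `P` over `L` of degree at most
`δ` which vanishes at `w_1, …, w_q, log p_1, …, log p_k` is zero after the substitution of `w_1, …, w_q`. -/
theorem result :
    (∃ K : Subfield ℂ, SimLiouville K ∧ ∀ A : Set ℕ, ((liouvilleSum A : ℝ) : ℂ) ∈ K) ∧
    ∀ q k D δ : ℕ, ∃ E : ℕ, ∀ N H : ℕ, (H + 2) ^ E ≤ N → ∀ K : Subfield ℂ, SimLiouville K → ∀ w : Fin q → ℂ,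
      ∃ S : Finset ℕ, S.card ≤ q + 1 ∧
      ∀ p : Fin k → ℕ, Function.Injective p → (∀ i, N < p i ∧ p i ≤ N + H ∧ p i ∉ S) →
      ∀ L : IntermediateField K ℂ, FiniteDimensional K L → Module.finrank K L ≤ D →
      ∀ P : MvPolynomial (Fin q ⊕ Fin k) L, P.totalDegree ≤ δ →
        MvPolynomial.aeval (Sum.elim w fun i => ((Real.log (p i) : ℝ) : ℂ)) P = 0 →
        MvPolynomial.aeval (Sum.elim (fun j => MvPolynomial.C (w j)) MvPolynomial.X) P =
          (0 : MvPolynomial (Fin k) ℂ) :=
  ⟨Pool.Agent.L5helper52.LL.exists_SL, fun q k D δ => Pool.Agent.L5helper52.WK.win_log q k D δ⟩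

end Pool.Agent.Results.MP_d171e3_nt.LiouvilleWindows
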