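import Mathlib
import Pool.Agent.L5helper52.T5.Win

/-!
# Lower bounds for polynomials in the logarithms of the primes of a window, at every scale

For all `q`, `k`, `D`, `d` there is `E` such that for all `N`, `H`, `A` with `(H + 2)^E ≤ N ≤ A` and all complex
numbers `w_1, …, w_q` of absolute value at most `A` there is a set `S` of at most `q + 1` integers with the following
property. Let `n_1, …, n_k` be any distinct integers (for instance primes) in `(N, N + H]` which are not in `S`, let `θ` be
an algebraic number of degree at most `D` and height at most `A`, and let `P` be an integral polynomial of degree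
at most `d` with coefficients at most `A`. Then `|P(θ, w, log n_1, …, log n_k)| ≥ A^(-E)`, unless all the
coefficients of the polynomial `P(θ, w, X_1, …, X_k)` are smaller than `1 / A`.

For `q = 0` (second part): at every scale `A` all the integers of the window with the possible exception of one
have logarithms such that `|P(log n_1, …, log n_k)| ≥ A^(-E)` for all nonzero integral polynomials of degree at most `d` with
coefficients at most `A`. Already for linear forms the dependence of the bound on the numbers `n_i` is that of the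
conjecture of Lang and Waldschmidt (a power of `max(|b_i|, n_i)`), while the theorem of Baker has the product of the
`log n_i` in the exponent.

Proof. If the statement is false for all `E = j`, take an ultraproduct of the counterexamples. In the residue field
of the sequences of polynomial growth in the scale (starting library, `Pool.Agent.R351.GF.Res`) the numbers
`log n - log N`, `n` in the window, are algebraically independent over the subring of the integers
(`Pool.Agent.R351.GF.win_indep`, from an explicit measure of algebraic independence for the values of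
`log (1 + β / N)`), and small values give exact algebraic relations over the classes of the constants. The exceptional
elements are exchanged in the matroid of algebraic dependence.
-/

set_option autoImplicit false

namespace Pool.Agent.Results.MP_d171e3_nt.LowerBoundsAtEveryScale

/-- The numbers `θ, w_1, …, w_q`. -/
def consts {q : ℕ} (θ : ℂ) (w : Fin q → ℂ) (o : Option (Fin q)) : ℂ := o.elim θ w

/-- The polynomial `P (θ, w, X_1, …, X_k)`. -/
noncomputable def inX {q k : ℕ} (θ : ℂ) (w : Fin q → ℂ) (P : MvPolynomial (Option (Fin q) ⊕ Fin k) ℤ) :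
    MvPolynomial (Fin k) ℂ :=
  MvPolynomial.aeval (Sum.elim (fun o => MvPolynomial.C (consts θ w o)) MvPolynomial.X) P

/-- **Main result.** -/
theorem result (q k D d : ℕ) : ∃ E : ℕ, ∀ N H A : ℕ, (H + 2) ^ E ≤ N → N ≤ A →
    (∀ w : Fin q → ℂ, (∀ j, ‖w j‖ ≤ A) → ∃ S : Finset ℕ, S.card ≤ q + 1 ∧
      ∀ n : Fin k → ℕ, Function.Injective n → (∀ i, N < n i ∧ n i ≤ N + H ∧ n i ∉ S) →
      ∀ (θ : ℂ) (R : Polynomial ℤ), R ≠ 0 → R.natDegree ≤ D → (∀ i, |R.coeff i| ≤ A) → Polynomial.aeval θ R = 0 →
      ∀ P : MvPolynomial (Option (Fin q) ⊕ Fin k) ℤ, P.totalDegree ≤ d → (∀ s, |P.coeff s| ≤ A) →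
      (∃ s, 1 ≤ (A : ℝ) * ‖(inX θ w P).coeff s‖) →
      1 ≤ (A : ℝ) ^ E * ‖MvPolynomial.aeval (Sum.elim (consts θ w) fun i => ((Real.log (n i) : ℝ) : ℂ)) P‖) ∧
    ∃ m : ℕ, ∀ n : Fin k → ℕ, Function.Injective n → (∀ i, N < n i ∧ n i ≤ N + H ∧ n i ≠ m) →
      ∀ P : MvPolynomial (Fin k) ℤ, P ≠ 0 → P.totalDegree ≤ d → (∀ s, |P.coeff s| ≤ A) →
      1 ≤ (A : ℝ) ^ E * |MvPolynomial.aeval (fun i => Real.log (n i)) P| := by
  classical
  obtain ⟨E₁, h₁⟩ := Pool.Agent.L5helper52.T5.windows q k D d
  obtain ⟨E₂, h₂⟩ := Pool.Agent.L5helper52.T5.windows 0 k 1 d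
  refine ⟨E₁ + E₂ + 1, fun N H A hN hNA => ?_⟩
  have hN1 : (H + 2) ^ E₁ ≤ N := (Nat.pow_le_pow_right (by omega) (by omega)).trans hN
  have hN2 : (H + 2) ^ E₂ ≤ N := (Nat.pow_le_pow_right (by omega) (by omega)).trans hN
  have hA1 : 1 ≤ A := (Nat.one_le_pow _ _ (by omega)).trans (hN.trans hNA)
  have hA1' : (1 : ℝ) ≤ A := by exact_mod_cast hA1
  refine ⟨fun w hw => ?_, ?_⟩
  · obtain ⟨S, hS, h⟩ := h₁ N H A hN1 hNA w hw
    refine ⟨S, hS, fun n hn hnS θ R hR0 hRD hRA hR P hPd hPA hs => ?_⟩
    by_contra hlt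
    push Not at hlt
    refine h n hn hnS ⟨θ, ⟨R, hR0, hRD, hRA, hR⟩, P, hPd, hPA, hs, ?_⟩
    refine lt_of_le_of_lt ?_ hlt
    exact mul_le_mul_of_nonneg_right (pow_le_pow_right₀ hA1' (by omega)) (norm_nonneg _)
  · obtain ⟨S, hS, h⟩ := h₂ N H A hN2 hNA Fin.elim0 (fun j => j.elim0)
    have hSm : ∃ m, S ⊆ {m} := by
      rcases Nat.lt_or_ge S.card 1 with h0 | h0
      · have h1 : S = ∅ := Finset.card_eq_zero.1 (by omega)
        exact ⟨0, by rw [h1]; exact Finset.empty_subset _⟩
      · obtain ⟨m, hm⟩ := Finset.card_eq_one.1 (show S.card = 1 by omega)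
        exact ⟨m, by rw [hm]⟩
    obtain ⟨m, hm⟩ := hSm
    refine ⟨m, fun n hn hnm P hP0 hPd hPA => ?_⟩
    by_contra hlt
    push Not at hlt
    set P' : MvPolynomial (Option (Fin 0) ⊕ Fin k) ℤ := MvPolynomial.rename Sum.inr P with hP'
    have hinr : Function.Injective (Sum.inr : Fin k → Option (Fin 0) ⊕ Fin k) := Sum.inr_injective
    have hval : MvPolynomial.aeval (Sum.elim (Pool.Agent.L5helper52.T5.opt (0 : ℂ) Fin.elim0)
        fun i => ((Real.log (n i) : ℝ) : ℂ)) P' = ((MvPolynomial.aeval (fun i => Real.log (n i)) P : ℝ) : ℂ) := by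
      rw [hP', MvPolynomial.aeval_rename]
      exact MvPolynomial.aeval_algebraMap_apply ℂ (fun i => Real.log (n i)) P
    have hcoeff : ∀ s, |P'.coeff s| ≤ A := by
      intro s
      by_cases hs : s ∈ Set.range (Finsupp.mapDomain (Sum.inr : Fin k → Option (Fin 0) ⊕ Fin k))
      · obtain ⟨t, rfl⟩ := hs
        rw [hP', MvPolynomial.coeff_rename_mapDomain _ hinr]
        exact hPA t
      · rw [hP', MvPolynomial.coeff_rename_eq_zero _ _ _ (fun t ht => absurd ⟨t, ht⟩ hs), abs_zero]
        exact Int.natCast_nonneg _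
    have hspec : Pool.Agent.L5helper52.T5.spec (0 : ℂ) Fin.elim0 P' = MvPolynomial.map (Int.castRingHom ℂ) P := by
      rw [Pool.Agent.L5helper52.T5.spec, hP', MvPolynomial.aeval_rename]
      have h3 : (Sum.elim (fun o => MvPolynomial.C (Pool.Agent.L5helper52.T5.opt (0 : ℂ) Fin.elim0 o))
          MvPolynomial.X ∘ Sum.inr : Fin k → MvPolynomial (Fin k) ℂ) = MvPolynomial.X := by
        funext i; rfl
      rw [h3]
      have h6 : (MvPolynomial.aeval MvPolynomial.X : MvPolynomial (Fin k) ℤ →ₐ[ℤ] MvPolynomial (Fin k) ℂ).toRingHom =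
          MvPolynomial.map (Int.castRingHom ℂ) := by
        apply MvPolynomial.ringHom_ext
        · intro n; simp
        · intro i; simp
      exact DFunLike.congr_fun h6 P
    have hex : ∃ s, 1 ≤ (A : ℝ) * ‖(Pool.Agent.L5helper52.T5.spec (0 : ℂ) Fin.elim0 P').coeff s‖ := by
      obtain ⟨s, hs⟩ := MvPolynomial.ne_zero_iff.1 hP0
      refine ⟨s, ?_⟩
      rw [hspec, MvPolynomial.coeff_map]
      have h4 : ‖(Int.castRingHom ℂ) (P.coeff s)‖ = |((P.coeff s : ℤ) : ℝ)| := Complex.norm_intCast _
      rw [h4]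
      have h5 : (1 : ℝ) ≤ |((P.coeff s : ℤ) : ℝ)| := by
        rw [← Int.cast_abs]
        exact_mod_cast Int.one_le_abs hs
      nlinarith
    refine h n hn (fun i => ⟨(hnm i).1, (hnm i).2.1, fun hi => (hnm i).2.2 (Finset.mem_singleton.1 (hm hi))⟩)
      ⟨0, ⟨Polynomial.X, Polynomial.X_ne_zero, by rw [Polynomial.natDegree_X], ?_, by simp⟩, P',
        (MvPolynomial.totalDegree_rename_le _ _).trans hPd, hcoeff, hex, ?_⟩
    · intro i
      rw [Polynomial.coeff_X]
      split_ifs
      · simp only [abs_one]; exact_mod_cast hA1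
      · simp
    · rw [hval, Complex.norm_real, Real.norm_eq_abs]
      refine lt_of_le_of_lt ?_ hlt
      exact mul_le_mul_of_nonneg_right (pow_le_pow_right₀ hA1' (by omega)) (abs_nonneg _)

end Pool.Agent.Results.MP_d171e3_nt.LowerBoundsAtEveryScale
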