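import Pool.Agent.L5helper71.GaRel

/-!
# Logarithms of many primes: relations of arbitrary degree with few terms

Let `M` be a set of `t` monomials in `r` variables, of any degrees, any two of which differ in the exponents of at least `s`
variables. For all but a proportion

`C t ^ 2 (1 + log H) (log X) / √s`

of the `r`-tuples `(p_1, …, p_r)` of primes up to `X` there is no nonzero polynomial `F` with monomials in `M` and with
algebraic coefficients of height at most `H` (of any degree) such that `F (log p_1, …, log p_r) = 0`. The constant `C` is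
absolute; there is no bound for the degree of `F`, and the number `r` of the primes may grow with `X`. So, for example, with
`s = (log X) ^ 3`, `r ≥ s` and `t` fixed there is no relation for almost all tuples. In the earlier results on this problem
the degree, or the number of additions, is bounded in terms of the primes.

More generally let `P_1, …, P_r` be any finite sets of integers `2 ≤ p ≤ X`, for instance any sets of primes, and `Q > 0` a
lower bound for the sum over the variables `i` with `e_i ≠ 0` of the proportions of the pairs of elements of `P_i` with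
distance at least `D`. The monomials `∏ (log p_i) ^ (e_i)` (`e_i` are integers) are spread out on the logarithmic scale:
the proportion of the tuples for which it is in `[y, e ^ L y]` is at most `3 (1 + L X (log X) / D) / √Q`. Hence almost all
tuples have no relations between given monomials, multiplied by arbitrary positive real numbers, with complex coefficients
which are zero or have absolute values between `1 / K` and `K`, and the linear combinations of the monomials are even at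
least half of each of their terms; and every dense set of tuples contains a large set of tuples the monomials of which
satisfy no linear relation with such coefficients.

Proof. The numbers `log log p` of two far elements of `P_i` differ by at least `D / (X log X)`, so that the theorem of
Littlewood, Offord and Erdős (in the form `Pool.Agent.L5helper71.GL.conc`) shows that the logarithm of the quotient of two
monomials takes values in a given interval rarely. In a sum of terms of very different sizes the largest one dominates.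
-/

set_option autoImplicit false

namespace Pool.Agent.Results.MP_d171e3_nt.ManyPrimesFewTerms

open Finset Pool.Agent.L5helper71.GL

/-- `α` is a root of a nonzero integer polynomial (of any degree) with coefficients of absolute value at most `H` -/
def HeightLe (H : ℕ) (α : ℂ) : Prop :=
  ∃ P : Polynomial ℤ, P ≠ 0 ∧ (∀ i, |P.coeff i| ≤ H) ∧ Polynomial.aeval α P = 0

/-- `c` is zero or has absolute value between `1 / K` and `K` -/
def Moderate (K : ℝ) (c : ℂ) : Prop := c = 0 ∨ (1 / K ≤ ‖c‖ ∧ ‖c‖ ≤ K)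

/-- the proportion of the pairs of elements of `S` which have a distance of at least `D` -/
noncomputable def far (S : Finset ℕ) (D : ℝ) : ℝ :=
  (#{p ∈ S ×ˢ S | D ≤ |(p.1 : ℝ) - p.2|} : ℝ) / (#S : ℝ) ^ 2

/-- the product of the numbers `(log p_i) ^ (e_i)` -/
noncomputable def val {r : ℕ} (e : Fin r → ℤ) (p : Fin r → ℕ) : ℝ := ∏ i, Real.log (p i) ^ e i

/-- for all coefficients `c_m` that are zero or have absolute value between `1 / K` and `K` the sum of the numbers
`c_m β_m ∏ (log p_i) ^ (m_i)`, `m` in `M`, is at least half of each of its terms -/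
def Dominated {r : ℕ} (M : Finset (Fin r → ℤ)) (β : (Fin r → ℤ) → ℝ) (K : ℝ) (p : Fin r → ℕ) : Prop :=
  ∀ c : (Fin r → ℤ) → ℂ, (∀ m ∈ M, Moderate K (c m)) → ∀ m ∈ M,
    ‖c m‖ * (β m * val m p) / 2 ≤ ‖∑ m' ∈ M, c m' * ((β m' * val m' p : ℝ) : ℂ)‖

/-- the set of the primes up to `X` -/
def primesTo (X : ℕ) : Finset ℕ := {p ∈ range (X + 1) | p.Prime}

lemma moderate_of_height {H : ℕ} {α : ℂ} (h : HeightLe H α) : Moderate ((H : ℝ) + 1) α := by
  by_cases h0 : α = 0
  · exact Or.inl h0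
  · exact Or.inr ⟨algH_ge h h0, algH_le h⟩

lemma loglog_diff {p q X : ℕ} (hp : 2 ≤ p) (hpq : p ≤ q) (hq : q ≤ X) :
    ((q : ℝ) - p) / (X * Real.log X) ≤ Real.log (Real.log q) - Real.log (Real.log p) := by
  have hp2 : (2 : ℝ) ≤ p := by exact_mod_cast hp
  have hpq' : (p : ℝ) ≤ q := by exact_mod_cast hpq
  have hqX : (q : ℝ) ≤ X := by exact_mod_cast hq
  have hlp : 0 < Real.log p := Real.log_pos (by linarith)
  have hlpq : Real.log p ≤ Real.log q := Real.log_le_log (by linarith) hpq'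
  have hlq : 0 < Real.log q := by linarith
  have hp0 : (0 : ℝ) < p := by linarith
  have hq0 : (0 : ℝ) < q := by linarith
  have hlqX : Real.log q ≤ Real.log X := Real.log_le_log (by linarith) hqX
  -- the two inequalities `1 - u ≤ - log u`
  have h1 : 1 - (p : ℝ) / q ≤ Real.log q - Real.log p := by
    have h := Real.log_le_sub_one_of_pos (x := (p : ℝ) / q) (by positivity)
    rw [Real.log_div (by positivity) (by positivity)] at h
    linarith
  have h2 : 1 - Real.log p / Real.log q ≤ Real.log (Real.log q) - Real.log (Real.log p) := by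
    have h := Real.log_le_sub_one_of_pos (x := Real.log p / Real.log q) (by positivity)
    rw [Real.log_div hlp.ne' hlq.ne'] at h
    linarith
  refine le_trans ?_ h2
  have h3 : 1 - Real.log p / Real.log q = (Real.log q - Real.log p) / Real.log q := by
    field_simp
  have h4 : 1 - (p : ℝ) / q = ((q : ℝ) - p) / q := by
    field_simp
  rw [h3]
  rw [h4] at h1
  have hqp : (0 : ℝ) ≤ (q : ℝ) - p := by linarith
  calc ((q : ℝ) - p) / (X * Real.log X) ≤ ((q : ℝ) - p) / (q * Real.log q) := by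
        apply div_le_div_of_nonneg_left hqp (by positivity)
        exact mul_le_mul hqX hlqX hlq.le (by linarith)
    _ = ((q : ℝ) - p) / q / Real.log q := by rw [div_div]
    _ ≤ (Real.log q - Real.log p) / Real.log q := div_le_div_of_nonneg_right h1 hlq.le

lemma loglog_abs {p q X : ℕ} (hp : 2 ≤ p) (hq : 2 ≤ q) (hpX : p ≤ X) (hqX : q ≤ X) :
    |(p : ℝ) - q| / (X * Real.log X) ≤ |Real.log (Real.log p) - Real.log (Real.log q)| := by
  rcases le_total p q with h | h
  · have h1 := loglog_diff hp h hqX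
    have h2 : (p : ℝ) ≤ q := by exact_mod_cast h
    rw [abs_sub_comm, abs_of_nonneg (by linarith : (0 : ℝ) ≤ (q : ℝ) - p), abs_sub_comm]
    exact h1.trans (le_abs_self _)
  · have h1 := loglog_diff hq h hpX
    have h2 : (q : ℝ) ≤ p := by exact_mod_cast h
    rw [abs_of_nonneg (by linarith : (0 : ℝ) ≤ (p : ℝ) - q)]
    exact h1.trans (le_abs_self _)

open Classical in
/-- a quarter of the pairs of elements of `S` have distance at least `N / 4` -/
lemma pairs_far {S : Finset ℕ} {N : ℕ} (hN : 2 ≤ N) (hS : N ≤ #S) :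
    (#S : ℝ) ^ 2 / 4 ≤ (#((S ×ˢ S).filter (fun p => (N : ℝ) / 4 ≤ |(p.1 : ℝ) - p.2|)) : ℝ) := by
  have hone : ∀ p ∈ S, (#S : ℝ) / 4 ≤ (#(S.filter (fun q : ℕ => (N : ℝ) / 4 ≤ |(p : ℝ) - q|)) : ℝ) := by
    intro p _
    have h1 : #(S.filter (fun q : ℕ => ¬ (N : ℝ) / 4 ≤ |(p : ℝ) - q|)) ≤ 2 * ((N - 1) / 4) + 1 := by
      have hsub : S.filter (fun q : ℕ => ¬ (N : ℝ) / 4 ≤ |(p : ℝ) - q|) ⊆ Icc (p - (N - 1) / 4) (p + (N - 1) / 4) := by
        intro q hq
        rw [mem_filter, not_le] at hq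
        have h2 := hq.2
        rw [abs_lt] at h2
        have h3 : (4 * q : ℝ) < 4 * p + N := by linarith
        have h4 : (4 * p : ℝ) < 4 * q + N := by linarith
        have h3' : 4 * q < 4 * p + N := by exact_mod_cast h3
        have h4' : 4 * p < 4 * q + N := by exact_mod_cast h4
        rw [mem_Icc]
        omega
      refine (card_le_card hsub).trans ?_
      rw [Nat.card_Icc]
      omega
    have h2 := card_filter_add_card_filter_not (s := S) (fun q : ℕ => (N : ℝ) / 4 ≤ |(p : ℝ) - q|)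
    have h3 : #S ≤ 4 * #(S.filter (fun q : ℕ => (N : ℝ) / 4 ≤ |(p : ℝ) - q|)) := by omega
    have h4 : (#S : ℝ) ≤ 4 * (#(S.filter (fun q : ℕ => (N : ℝ) / 4 ≤ |(p : ℝ) - q|)) : ℝ) := by exact_mod_cast h3
    linarith
  have hsum : (#((S ×ˢ S).filter (fun p => (N : ℝ) / 4 ≤ |(p.1 : ℝ) - p.2|)) : ℝ) =
      ∑ p ∈ S, (#(S.filter (fun q : ℕ => (N : ℝ) / 4 ≤ |(p : ℝ) - q|)) : ℝ) := by
    simp only [card_filter]
    push_cast
    rw [sum_product]
  rw [hsum]
  calc (#S : ℝ) ^ 2 / 4 = ∑ _p ∈ S, (#S : ℝ) / 4 := by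
        rw [sum_const, nsmul_eq_mul]
        ring
    _ ≤ _ := sum_le_sum hone

lemma far_eq_prop (S : Finset ℕ) (D : ℝ) : far S D = prop S (fun x y => D ≤ |(x : ℝ) - y|) := by
  classical
  unfold far prop
  congr

lemma far_nonneg (S : Finset ℕ) (D : ℝ) : 0 ≤ far S D := by
  rw [far_eq_prop]
  exact prop_nonneg _ _

lemma far_le_prop {S : Finset ℕ} {X : ℕ} (hX : ∀ p ∈ S, 2 ≤ p ∧ p ≤ X) {D : ℝ} {e : ℤ} (he : e ≠ 0) :
    far S D ≤ prop S (fun x y => D / (X * Real.log X) ≤
      |(e : ℝ) * Real.log (Real.log x) - (e : ℝ) * Real.log (Real.log y)|) := by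
  rw [far_eq_prop]
  refine prop_mono _ fun x hx y hy hxy => ?_
  have a1 := hX _ hx
  have a2 := hX _ hy
  have h3 := loglog_abs a1.1 a2.1 a1.2 a2.2
  have hX2 : (2 : ℝ) ≤ X := by exact_mod_cast a1.1.trans a1.2
  have hlX : 0 < Real.log X := Real.log_pos (by linarith)
  rw [← mul_sub, abs_mul]
  have h2 : (1 : ℝ) ≤ |(e : ℝ)| := by
    have : 1 ≤ |e| := Int.one_le_abs he
    exact_mod_cast this
  calc D / (X * Real.log X) ≤ |(x : ℝ) - y| / (X * Real.log X) := div_le_div_of_nonneg_right hxy (by positivity)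
    _ ≤ |Real.log (Real.log x) - Real.log (Real.log y)| := h3
    _ ≤ |(e : ℝ)| * |Real.log (Real.log x) - Real.log (Real.log y)| := le_mul_of_one_le_left (abs_nonneg _) h2

/-- a quarter of the pairs of elements of a set of at least `N` integers have distance at least `N / 4` -/
lemma far_quarter {S : Finset ℕ} {N : ℕ} (hN : 2 ≤ N) (hS : N ≤ #S) : 1 / 4 ≤ far S ((N : ℝ) / 4) := by
  classical
  have hS0 : (0 : ℝ) < #S := by exact_mod_cast (by omega : 0 < #S)
  unfold far
  rw [le_div_iff₀ (by positivity)]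
  have h1 := pairs_far hN hS
  have h2 : (#((S ×ˢ S).filter (fun p => (N : ℝ) / 4 ≤ |(p.1 : ℝ) - p.2|)) : ℝ) =
      (#{p ∈ S ×ˢ S | (N : ℝ) / 4 ≤ |(p.1 : ℝ) - p.2|} : ℝ) := by
    congr
  linarith

section main

variable {r : ℕ} {P : Fin r → Finset ℕ} {X : ℕ} {D Q : ℝ}

lemma log_prod' (hP : ∀ i, ∀ p ∈ P i, 2 ≤ p ∧ p ≤ X) {p : Fin r → ℕ}
    (hp : p ∈ Fintype.piFinset P) (e : Fin r → ℤ) :
    0 < val e p ∧ Real.log (val e p) = ∑ i, (e i : ℝ) * Real.log (Real.log (p i)) := by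
  have h1 : ∀ i, 0 < Real.log (p i) := fun i => by
    have h2 := (hP i _ (Fintype.mem_piFinset.1 hp i)).1
    have h3 : (2 : ℝ) ≤ p i := by exact_mod_cast h2
    exact Real.log_pos (by linarith)
  unfold val
  refine ⟨prod_pos fun i _ => zpow_pos (h1 i) _, ?_⟩
  rw [Real.log_prod (fun i _ => (zpow_pos (h1 i) _).ne')]
  refine sum_congr rfl fun i _ => ?_
  rw [Real.log_zpow]

open Classical in
/-- **The concentration inequality for monomials in logarithms of primes** -/
theorem window (hP : ∀ i, ∀ p ∈ P i, 2 ≤ p ∧ p ≤ X) (hX : 2 ≤ X) (hD : 0 < D) (hQ : 0 < Q)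
    (e : Fin r → ℤ) (he : Q ≤ ∑ i with e i ≠ 0, far (P i) D) {R : ℝ} (hR : 0 ≤ R) (c : ℝ) :
    (#((Fintype.piFinset P).filter (fun p => |Real.log (val e p) - c| ≤ R)) : ℝ) * √Q ≤
      3 * (1 + 2 * R * (X * Real.log X / D)) * ∏ i, (#(P i) : ℝ) := by
  obtain ⟨h, hh⟩ : ∃ h : ℝ, h = D / (X * Real.log X) := ⟨_, rfl⟩
  have hX2 : (2 : ℝ) ≤ X := by exact_mod_cast hX
  have hl : 0 < Real.log X := Real.log_pos (by linarith)
  have hh0 : 0 < h := by
    rw [hh]
    positivity
  have hQF : Q ≤ ∑ i, prop (P i) (fun x y => h ≤ |(e i : ℝ) * Real.log (Real.log x) -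
      (e i : ℝ) * Real.log (Real.log y)|) := by
    refine he.trans ?_
    calc ∑ i with e i ≠ 0, far (P i) D ≤ ∑ i with e i ≠ 0,
          prop (P i) (fun x y => h ≤ |(e i : ℝ) * Real.log (Real.log x) - (e i : ℝ) * Real.log (Real.log y)|) := by
          refine sum_le_sum fun i hi => ?_
          rw [mem_filter] at hi
          rw [hh]
          exact far_le_prop (hP i) hi.2
      _ ≤ ∑ i, prop (P i) (fun x y => h ≤ |(e i : ℝ) * Real.log (Real.log x) - (e i : ℝ) * Real.log (Real.log y)|) :=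
          sum_le_sum_of_subset_of_nonneg (filter_subset _ _) (fun _ _ _ => prop_nonneg _ _)
  have h1 := conc P (fun i x => (e i : ℝ) * Real.log (Real.log x)) (h := h) (Q := Q) hh0 hQ hR hQF c
  have h2 : (Fintype.piFinset P).filter (fun p => |Real.log (val e p) - c| ≤ R) =
      (Fintype.piFinset P).filter (fun p => |∑ i, (e i : ℝ) * Real.log (Real.log (p i)) - c| ≤ R) := by
    refine filter_congr fun p hp => ?_
    rw [(log_prod' hP hp e).2]
  rw [h2]
  have h4 : 2 * R / h = 2 * R * (X * Real.log X / D) := by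
    rw [hh]
    field_simp
  rw [h4] at h1
  linarith

open Classical in
theorem small_ball (hP : ∀ i, ∀ p ∈ P i, 2 ≤ p ∧ p ≤ X) (hX : 2 ≤ X) (hD : 0 < D) (hQ : 0 < Q)
    (e : Fin r → ℤ) (he : Q ≤ ∑ i with e i ≠ 0, far (P i) D) {y L : ℝ} (hy : 0 < y) (hL : 0 ≤ L) :
    (#{p ∈ Fintype.piFinset P | y ≤ val e p ∧ val e p ≤ Real.exp L * y} : ℝ) * √Q ≤
      3 * (1 + L * (X * Real.log X / D)) * ∏ i, (#(P i) : ℝ) := by
  have h1 := window hP hX hD hQ e he (R := L / 2) (by positivity) (Real.log y + L / 2)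
  have h2 : #{p ∈ Fintype.piFinset P | y ≤ val e p ∧ val e p ≤ Real.exp L * y} ≤
      #((Fintype.piFinset P).filter (fun p => |Real.log (val e p) - (Real.log y + L / 2)| ≤ L / 2)) := by
    refine card_le_card fun a ha => ?_
    rw [mem_filter] at ha ⊢
    refine ⟨ha.1, ?_⟩
    have h3 := (log_prod' hP ha.1 e).1
    have h4 : Real.log y ≤ Real.log (val e a) := Real.log_le_log hy ha.2.1
    have h5 : Real.log (val e a) ≤ Real.log (Real.exp L * y) := Real.log_le_log h3 ha.2.2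
    rw [Real.log_mul (Real.exp_pos _).ne' hy.ne', Real.log_exp] at h5
    rw [abs_le]
    constructor <;> linarith
  have h3 : (#{p ∈ Fintype.piFinset P | y ≤ val e p ∧ val e p ≤ Real.exp L * y} : ℝ) * √Q ≤
      3 * (1 + 2 * (L / 2) * (X * Real.log X / D)) * ∏ i, (#(P i) : ℝ) :=
    (mul_le_mul_of_nonneg_right (by exact_mod_cast h2) (Real.sqrt_nonneg _)).trans h1
  refine h3.trans (le_of_eq ?_)
  ring

/-- the logarithm of the separation ratio -/
lemma log_K {K : ℝ} (hK : 1 ≤ K) : Real.log (1 + 2 * K ^ 2) ≤ 2 + 2 * Real.log K := by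
  have h1 : 1 + 2 * K ^ 2 ≤ 4 * K ^ 2 := by nlinarith
  have h2 : Real.log (1 + 2 * K ^ 2) ≤ Real.log (4 * K ^ 2) := Real.log_le_log (by positivity) h1
  rw [Real.log_mul (by norm_num) (by positivity), Real.log_pow] at h2
  have h3 : Real.log 4 ≤ 2 := by
    rw [show (4 : ℝ) = 2 ^ 2 by norm_num, Real.log_pow]
    have := Real.log_two_lt_d9
    push_cast
    linarith
  push_cast at h2
  linarith

open Classical in
theorem relations (hP : ∀ i, ∀ p ∈ P i, 2 ≤ p ∧ p ≤ X) (hX : 2 ≤ X) (hD : 0 < D) (hQ : 0 < Q)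
    (M : Finset (Fin r → ℤ)) (β : (Fin r → ℤ) → ℝ) (hβ : ∀ m ∈ M, 0 < β m)
    (hM : ∀ m ∈ M, ∀ m' ∈ M, m ≠ m' → Q ≤ ∑ i with m i ≠ m' i, far (P i) D) {K : ℝ} (hK : 1 ≤ K) :
    (#{p ∈ Fintype.piFinset P | ¬ Dominated M β K p} : ℝ) * √Q ≤
      12 * (1 + (1 + Real.log K) * (X * Real.log X / D)) * (#M : ℝ) ^ 2 * ∏ i, (#(P i) : ℝ) := by
  obtain ⟨Λ, hΛ⟩ : ∃ Λ : ℝ, Λ = Real.log (1 + 2 * K ^ 2) := ⟨_, rfl⟩
  have hX2 : (2 : ℝ) ≤ X := by exact_mod_cast hX
  have hl : 0 < Real.log X := Real.log_pos (by linarith)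
  obtain ⟨Z, hZ⟩ : ∃ Z : ℝ, Z = X * Real.log X / D := ⟨_, rfl⟩
  have hZ0 : 0 < Z := by
    rw [hZ]
    positivity
  have hΛ0 : 0 ≤ Λ := by
    rw [hΛ]
    exact Real.log_nonneg (by nlinarith)
  have hΛ1 : Λ ≤ 2 + 2 * Real.log K := by
    rw [hΛ]
    exact log_K hK
  have hlK : 0 ≤ Real.log K := Real.log_nonneg hK
  obtain ⟨N, hN⟩ : ∃ N : ℝ, N = ∏ i, (#(P i) : ℝ) := ⟨_, rfl⟩
  have hN0 : 0 ≤ N := by
    rw [hN]
    exact prod_nonneg fun i _ => Nat.cast_nonneg _
  obtain ⟨W, hW⟩ : ∃ W : (Fin r → ℤ) × (Fin r → ℤ) → Finset (Fin r → ℕ), W = fun q =>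
    (Fintype.piFinset P).filter (fun p => |Real.log (val (fun i => q.1 i - q.2 i) p) -
      (Real.log (β q.2) - Real.log (β q.1))| ≤ Λ) := ⟨_, rfl⟩
  obtain ⟨B, hB⟩ : ∃ B : Finset (Fin r → ℕ), B = {p ∈ Fintype.piFinset P | ¬ Dominated M β K p} := ⟨_, rfl⟩
  rw [← hB, ← hN, ← hZ]
  have hsub : B ⊆ ((M ×ˢ M).filter (fun q => q.1 ≠ q.2)).biUnion W := by
    intro a ha
    rw [hB, mem_filter] at ha
    by_contra hno
    refine ha.2 fun c hc m hm => ?_
    have hpos : ∀ m ∈ M, 0 < β m * val m a := fun m hm => mul_pos (hβ m hm) (log_prod' hP ha.1 m).1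
    refine dominate (T := fun m => β m * val m a) (K := K) hK M hpos ?_ c
      (fun m hm h0 => (hc m hm).resolve_left h0) hm
    intro m1 hm1 m2 hm2 hne hle
    by_contra hcon
    rw [not_le] at hcon
    refine hno ?_
    rw [mem_biUnion]
    refine ⟨(m1, m2), ?_, ?_⟩
    · rw [mem_filter, mem_product]
      exact ⟨⟨hm1, hm2⟩, hne⟩
    · rw [hW, mem_filter]
      refine ⟨ha.1, ?_⟩
      have h1 := log_prod' hP ha.1 m1
      have h2 := log_prod' hP ha.1 m2
      have h3 := log_prod' hP ha.1 (fun i => m1 i - m2 i)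
      have e : Real.log (val (fun i => m1 i - m2 i) a) = Real.log (val m1 a) - Real.log (val m2 a) := by
        rw [h3.2, h1.2, h2.2, ← sum_sub_distrib]
        refine sum_congr rfl fun i _ => ?_
        push_cast
        ring
      have hl1 : Real.log (β m1 * val m1 a) = Real.log (β m1) + Real.log (val m1 a) :=
        Real.log_mul (hβ m1 hm1).ne' h1.1.ne'
      have hl2 : Real.log (β m2 * val m2 a) = Real.log (β m2) + Real.log (val m2 a) :=
        Real.log_mul (hβ m2 hm2).ne' h2.1.ne'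
      have h4 : Real.log (β m1 * val m1 a) ≤ Real.log (β m2 * val m2 a) := Real.log_le_log (hpos m1 hm1) hle
      have h5 : Real.log (β m2 * val m2 a) ≤ Real.log ((1 + 2 * K ^ 2) * (β m1 * val m1 a)) :=
        Real.log_le_log (hpos m2 hm2) hcon.le
      rw [Real.log_mul (by positivity) (hpos m1 hm1).ne', ← hΛ] at h5
      show |Real.log (val (fun i => m1 i - m2 i) a) - (Real.log (β m2) - Real.log (β m1))| ≤ Λ
      rw [e, abs_le]
      constructor <;> linarith
  have hcard : (#B : ℝ) ≤ ∑ q ∈ (M ×ˢ M).filter (fun q => q.1 ≠ q.2), (#(W q) : ℝ) := by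
    exact_mod_cast (card_le_card hsub).trans card_biUnion_le
  have hone : ∀ q ∈ (M ×ˢ M).filter (fun q => q.1 ≠ q.2), (#(W q) : ℝ) * √Q ≤
      12 * (1 + (1 + Real.log K) * Z) * N := by
    intro q hq
    rw [mem_filter, mem_product] at hq
    have h1 := hM q.1 hq.1.1 q.2 hq.1.2 hq.2
    have h2 := window hP hX hD hQ (fun i => q.1 i - q.2 i) (by
      refine h1.trans (le_of_eq (sum_congr ?_ fun _ _ => rfl))
      refine filter_congr fun i _ => ?_
      rw [Ne, Ne, sub_eq_zero]) (R := Λ) hΛ0 (Real.log (β q.2) - Real.log (β q.1))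
    rw [hW, hN]
    refine h2.trans (mul_le_mul_of_nonneg_right ?_ (prod_nonneg fun i _ => Nat.cast_nonneg _))
    rw [← hZ]
    have h3 : Λ * Z ≤ (2 + 2 * Real.log K) * Z := mul_le_mul_of_nonneg_right hΛ1 hZ0.le
    linarith
  calc (#B : ℝ) * √Q ≤ (∑ q ∈ (M ×ˢ M).filter (fun q => q.1 ≠ q.2), (#(W q) : ℝ)) * √Q :=
        mul_le_mul_of_nonneg_right hcard (Real.sqrt_nonneg _)
    _ = ∑ q ∈ (M ×ˢ M).filter (fun q => q.1 ≠ q.2), (#(W q) : ℝ) * √Q := by rw [sum_mul]
    _ ≤ ∑ _q ∈ (M ×ˢ M).filter (fun q => q.1 ≠ q.2), 12 * (1 + (1 + Real.log K) * Z) * N := sum_le_sum hone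
    _ = #((M ×ˢ M).filter (fun q => q.1 ≠ q.2)) * (12 * (1 + (1 + Real.log K) * Z) * N) := by
        rw [sum_const, nsmul_eq_mul]
    _ ≤ (#M : ℝ) ^ 2 * (12 * (1 + (1 + Real.log K) * Z) * N) := by
        refine mul_le_mul_of_nonneg_right ?_ (by positivity)
        have h1 : #((M ×ˢ M).filter (fun q => q.1 ≠ q.2)) ≤ #M ^ 2 := by
          refine (card_filter_le _ _).trans ?_
          rw [card_product, sq]
        exact_mod_cast h1
    _ = _ := by ring

open Classical in
theorem dense_sets (hP : ∀ i, ∀ p ∈ P i, 2 ≤ p ∧ p ≤ X) (hX : 2 ≤ X) (hD : 0 < D) (hQ : 0 < Q)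
    (e : Fin r → ℤ) (he : Q ≤ ∑ i with e i ≠ 0, far (P i) D) {K : ℝ} (hK : 1 ≤ K)
    (E : Finset (Fin r → ℕ)) (hE : E ⊆ Fintype.piFinset P) :
    ∃ G ⊆ E, (#E : ℝ) * √Q ≤ #G * (12 * (1 + (1 + Real.log K) * (X * Real.log X / D)) * ∏ i, (#(P i) : ℝ)) ∧
      ∀ c : (Fin r → ℕ) → ℂ, (∀ a ∈ G, Moderate K (c a)) → ∀ a ∈ G,
        ‖c a‖ * val e a / 2 ≤ ‖∑ b ∈ G, c b * ((val e b : ℝ) : ℂ)‖ := by
  obtain ⟨Λ, hΛ⟩ : ∃ Λ : ℝ, Λ = Real.log (1 + 2 * K ^ 2) := ⟨_, rfl⟩
  have hX2 : (2 : ℝ) ≤ X := by exact_mod_cast hX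
  have hl : 0 < Real.log X := Real.log_pos (by linarith)
  obtain ⟨Z, hZ⟩ : ∃ Z : ℝ, Z = X * Real.log X / D := ⟨_, rfl⟩
  have hZ0 : 0 < Z := by
    rw [hZ]
    positivity
  have hΛ0 : 0 ≤ Λ := by
    rw [hΛ]
    exact Real.log_nonneg (by nlinarith)
  have hΛ1 : Λ ≤ 2 + 2 * Real.log K := by
    rw [hΛ]
    exact log_K hK
  have hlK : 0 ≤ Real.log K := Real.log_nonneg hK
  have hpos : ∀ a ∈ E, 0 < val e a := fun a ha => (log_prod' hP (hE ha) e).1
  obtain ⟨Pg, hPg⟩ : ∃ Pg : Finset (Fin r → ℕ) → Prop, ∀ G, Pg G ↔ ∀ a ∈ G, ∀ b ∈ G, a ≠ b →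
    Λ < |Real.log (val e a) - Real.log (val e b)| := ⟨_, fun _ => Iff.rfl⟩
  obtain ⟨S, hS⟩ : ∃ S : Finset (Finset (Fin r → ℕ)), S = E.powerset.filter Pg := ⟨_, rfl⟩
  have hSne : S.Nonempty := ⟨∅, by
    rw [hS, mem_filter, hPg]
    simp⟩
  obtain ⟨G, hG, hGmax⟩ := exists_max_image S (fun G => #G) hSne
  rw [hS, mem_filter, mem_powerset, hPg] at hG
  refine ⟨G, hG.1, ?_, ?_⟩
  · have hcov : E ⊆ G.biUnion (fun b => (Fintype.piFinset P).filter (fun a =>
        |Real.log (val e a) - Real.log (val e b)| ≤ Λ)) := by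
      intro a ha
      rw [mem_biUnion]
      by_cases haG : a ∈ G
      · refine ⟨a, haG, ?_⟩
        rw [mem_filter]
        refine ⟨hE ha, ?_⟩
        rw [sub_self, abs_zero]
        exact hΛ0
      · by_contra hno
        have h1 : ∀ b ∈ G, Λ < |Real.log (val e a) - Real.log (val e b)| := by
          intro b hb
          by_contra hc
          exact hno ⟨b, hb, by rw [mem_filter]; exact ⟨hE ha, not_lt.1 hc⟩⟩
        have h2 : insert a G ∈ S := by
          rw [hS, mem_filter, mem_powerset, hPg]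
          refine ⟨insert_subset ha hG.1, ?_⟩
          intro x hx y hy hxy
          rcases mem_insert.1 hx with hx1 | hx1
          · rcases mem_insert.1 hy with hy1 | hy1
            · exact absurd (hx1.trans hy1.symm) hxy
            · rw [hx1]
              exact h1 y hy1
          · rcases mem_insert.1 hy with hy1 | hy1
            · rw [hy1, abs_sub_comm]
              exact h1 x hx1
            · exact hG.2 x hx1 y hy1 hxy
        have h3 := hGmax _ h2
        rw [card_insert_of_notMem haG] at h3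
        omega
    have h1 : (#E : ℝ) ≤ ∑ b ∈ G, (#((Fintype.piFinset P).filter (fun a =>
        |Real.log (val e a) - Real.log (val e b)| ≤ Λ)) : ℝ) := by
      exact_mod_cast (card_le_card hcov).trans card_biUnion_le
    rw [← hZ]
    calc (#E : ℝ) * √Q ≤ (∑ b ∈ G, (#((Fintype.piFinset P).filter (fun a =>
          |Real.log (val e a) - Real.log (val e b)| ≤ Λ)) : ℝ)) * √Q :=
          mul_le_mul_of_nonneg_right h1 (Real.sqrt_nonneg _)
      _ = ∑ b ∈ G, (#((Fintype.piFinset P).filter (fun a =>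
          |Real.log (val e a) - Real.log (val e b)| ≤ Λ)) : ℝ) * √Q := by rw [sum_mul]
      _ ≤ ∑ _b ∈ G, 12 * (1 + (1 + Real.log K) * Z) * ∏ i, (#(P i) : ℝ) := by
          refine sum_le_sum fun b _ => ?_
          refine (window hP hX hD hQ e he hΛ0 _).trans ?_
          refine mul_le_mul_of_nonneg_right ?_ (prod_nonneg fun i _ => Nat.cast_nonneg _)
          rw [← hZ]
          have h3 : Λ * Z ≤ (2 + 2 * Real.log K) * Z := mul_le_mul_of_nonneg_right hΛ1 hZ0.le
          linarith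
      _ = _ := by rw [sum_const, nsmul_eq_mul]
  · intro c hc a ha
    refine dominate (T := fun a => val e a) (K := K) hK G (fun a ha => hpos a (hG.1 ha)) ?_ c
      (fun a ha h0 => (hc a ha).resolve_left h0) ha
    intro x hx y hy hxy hle
    have h1 := hG.2 x hx y hy hxy
    have hx0 := hpos x (hG.1 hx)
    have hy0 := hpos y (hG.1 hy)
    have h2 : Real.log (val e x) ≤ Real.log (val e y) := Real.log_le_log hx0 hle
    rw [abs_sub_comm, abs_of_nonneg (by linarith), hΛ] at h1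
    have h3 : Real.log ((1 + 2 * K ^ 2) * val e x) ≤ Real.log (val e y) := by
      rw [Real.log_mul (by positivity) hx0.ne']
      linarith
    exact (Real.log_le_log_iff (by positivity) hy0).1 h3

end main

section primes

open Filter

lemma card_primesTo (X : ℕ) : #(primesTo X) = Nat.primeCounting X := by
  unfold primesTo
  rw [Nat.primeCounting, Nat.primeCounting', Nat.count_eq_card_filter_range]

lemma mem_primesTo {X p : ℕ} : p ∈ primesTo X ↔ p ≤ X ∧ p.Prime := by
  unfold primesTo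
  rw [mem_filter, mem_range]
  constructor
  · rintro ⟨h1, h2⟩
    exact ⟨by omega, h2⟩
  · rintro ⟨h1, h2⟩
    exact ⟨by omega, h2⟩

lemma pi_lower : ∀ᶠ n : ℕ in atTop, (13 / 20 : ℝ) * n / Real.log n ≤ #(primesTo n) := by
  have h1 := Real.isLittleO_log_id_atTop.bound (show (0 : ℝ) < 1 / 50 by norm_num)
  have ht : Tendsto (fun n : ℕ => (n : ℝ) + 1) atTop atTop :=
    tendsto_atTop_add_const_right _ _ tendsto_natCast_atTop_atTop
  filter_upwards [ht.eventually h1, eventually_ge_atTop 2] with n hn hn2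
  have hn2' : (2 : ℝ) ≤ n := by exact_mod_cast hn2
  have hl : 0 < Real.log n := Real.log_pos (by linarith)
  rw [card_primesTo]
  refine le_trans ?_ (Chebyshev.pi_ge n)
  refine div_le_div_of_nonneg_right ?_ hl.le
  have h2 : Real.log ((n : ℝ) + 1) ≤ 1 / 50 * (n + 1) := by
    have h3 : ‖Real.log ((n : ℝ) + 1)‖ ≤ 1 / 50 * ‖(n : ℝ) + 1‖ := hn
    rw [Real.norm_of_nonneg (by linarith : (0 : ℝ) ≤ (n : ℝ) + 1)] at h3
    exact (le_abs_self _).trans h3
  have := Real.log_two_gt_d9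
  nlinarith

lemma pi_upper : ∀ᶠ n : ℕ in atTop, (#(primesTo n) : ℝ) ≤ (7 / 5 : ℝ) * n / Real.log n := by
  have h1 := Chebyshev.eventually_primeCounting_le (show (0 : ℝ) < 1 / 100 by norm_num)
  filter_upwards [tendsto_natCast_atTop_atTop.eventually h1, eventually_ge_atTop 2] with n hn hn2
  have hn2' : (2 : ℝ) ≤ n := by exact_mod_cast hn2
  have hl : 0 < Real.log n := Real.log_pos (by linarith)
  rw [card_primesTo]
  rw [Nat.floor_natCast] at hn
  refine hn.trans ?_
  refine div_le_div_of_nonneg_right ?_ hl.le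
  have h4 : Real.log 4 ≤ 1.3863 := by
    rw [show (4 : ℝ) = 2 ^ 2 by norm_num, Real.log_pow]
    have := Real.log_two_lt_d9
    push_cast
    linarith
  refine mul_le_mul_of_nonneg_right ?_ (by linarith)
  norm_num at h4 ⊢
  linarith

open Classical in
lemma primes_far : ∃ X₀ : ℕ, 3 ≤ X₀ ∧ ∀ X : ℕ, X₀ ≤ X → 1 / 100 ≤ far (primesTo X) ((X : ℝ) / 16) := by
  have t8 : Tendsto (fun n : ℕ => n / 8) atTop atTop :=
    tendsto_atTop_atTop.2 fun b => ⟨8 * b, fun a ha => by omega⟩
  have t16 : Tendsto (fun n : ℕ => n / 16) atTop atTop :=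
    tendsto_atTop_atTop.2 fun b => ⟨16 * b, fun a ha => by omega⟩
  have tl : Tendsto (fun n : ℕ => Real.log n) atTop atTop := Real.tendsto_log_atTop.comp tendsto_natCast_atTop_atTop
  have hev : ∀ᶠ X : ℕ in atTop, 1 / 100 ≤ far (primesTo X) ((X : ℝ) / 16) := by
    filter_upwards [pi_lower, pi_upper, t8.eventually pi_upper, t16.eventually pi_lower,
      tl.eventually (eventually_ge_atTop (10 * Real.log 16)), eventually_ge_atTop 1000] with X h1 h2 h3 h4 h5 h6
    have hX : (1000 : ℝ) ≤ X := by exact_mod_cast h6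
    have hX0 : (0 : ℝ) < X := by linarith
    have hL : 0 < Real.log X := Real.log_pos (by linarith)
    obtain ⟨f, hf⟩ : ∃ f : ℝ, f = X / Real.log X := ⟨_, rfl⟩
    have hf0 : 0 < f := by
      rw [hf]
      positivity
    have e1 : 13 / 20 * f ≤ #(primesTo X) := by
      refine le_trans (le_of_eq ?_) h1
      rw [hf]
      ring
    have e2 : (#(primesTo X) : ℝ) ≤ 7 / 5 * f := by
      refine h2.trans (le_of_eq ?_)
      rw [hf]
      ring
    have e3 : (#(primesTo (X / 8)) : ℝ) ≤ 13 / 40 * f := by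
      refine h3.trans ?_
      have hY1 : (((X / 8 : ℕ)) : ℝ) ≤ X / 8 := by
        rw [le_div_iff₀ (by norm_num)]
        exact_mod_cast (by omega : X / 8 * 8 ≤ X)
      have hY2 : (X : ℝ) / 16 ≤ ((X / 8 : ℕ) : ℝ) := by
        rw [div_le_iff₀ (by norm_num)]
        exact_mod_cast (by omega : X ≤ X / 8 * 16)
      have hlY : 9 / 10 * Real.log X ≤ Real.log ((X / 8 : ℕ) : ℝ) := by
        have h7 := Real.log_le_log (by positivity) hY2
        rw [Real.log_div (by linarith) (by norm_num)] at h7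
        linarith
      calc (7 / 5 : ℝ) * ((X / 8 : ℕ) : ℝ) / Real.log ((X / 8 : ℕ) : ℝ) ≤ 7 / 5 * (X / 8) / (9 / 10 * Real.log X) := by
            exact div_le_div₀ (by positivity) (mul_le_mul_of_nonneg_left hY1 (by norm_num)) (by positivity) hlY
        _ = 7 / 36 * f := by
            rw [hf]
            field_simp
            norm_num
        _ ≤ 13 / 40 * f := by linarith
    have e4 : 13 / 340 * f ≤ #(primesTo (X / 16)) := by
      refine le_trans ?_ h4
      have hY1 : (((X / 16 : ℕ)) : ℝ) ≤ X := by exact_mod_cast Nat.div_le_self _ _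
      have hY2 : (X : ℝ) / 17 ≤ ((X / 16 : ℕ) : ℝ) := by
        rw [div_le_iff₀ (by norm_num)]
        exact_mod_cast (by omega : X ≤ X / 16 * 17)
      have hY3 : (1 : ℝ) < ((X / 16 : ℕ) : ℝ) := by
        have : 1 < X / 16 := by omega
        exact_mod_cast this
      have hlY0 : 0 < Real.log ((X / 16 : ℕ) : ℝ) := Real.log_pos hY3
      have hlY : Real.log ((X / 16 : ℕ) : ℝ) ≤ Real.log X := Real.log_le_log (by linarith) hY1
      calc 13 / 340 * f = 13 / 20 * (X / 17) / Real.log X := by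
            rw [hf]
            field_simp
            norm_num
        _ ≤ (13 / 20 : ℝ) * ((X / 16 : ℕ) : ℝ) / Real.log ((X / 16 : ℕ) : ℝ) := by
            exact div_le_div₀ (by positivity) (mul_le_mul_of_nonneg_left hY2 (by norm_num)) hlY0 hlY
    have hsub8 : primesTo (X / 8) ⊆ primesTo X := by
      intro p hp
      rw [mem_primesTo] at hp ⊢
      exact ⟨by omega, hp.2⟩
    have hsub : primesTo (X / 16) ×ˢ (primesTo X \ primesTo (X / 8)) ⊆
        {p ∈ primesTo X ×ˢ primesTo X | (X : ℝ) / 16 ≤ |(p.1 : ℝ) - p.2|} := by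
      rintro ⟨p, q⟩ hpq
      rw [mem_product, Finset.mem_sdiff, mem_primesTo, mem_primesTo, mem_primesTo] at hpq
      rw [mem_filter, mem_product, mem_primesTo, mem_primesTo]
      obtain ⟨⟨hp1, hp2⟩, ⟨hq1, hq2⟩, hq3⟩ := hpq
      have hq4 : X / 8 < q := by
        by_contra hc
        exact hq3 ⟨not_lt.1 hc, hq2⟩
      refine ⟨⟨⟨by show p ≤ X; simp only at hp1; omega, hp2⟩, ⟨hq1, hq2⟩⟩, ?_⟩
      simp only at hp1 hq4 ⊢
      have h7 : (16 * p : ℝ) ≤ X := by exact_mod_cast (by omega : 16 * p ≤ X)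
      have h8 : (X : ℝ) ≤ 8 * q := by exact_mod_cast (by omega : X ≤ 8 * q)
      rw [abs_sub_comm]
      refine le_trans ?_ (le_abs_self _)
      linarith
    have hcard := card_le_card hsub
    rw [card_product] at hcard
    have hsd : (#(primesTo X \ primesTo (X / 8)) : ℝ) = #(primesTo X) - #(primesTo (X / 8)) := by
      rw [card_sdiff_of_subset hsub8, Nat.cast_sub (card_le_card hsub8)]
    have hcard' : (#(primesTo (X / 16)) : ℝ) * (#(primesTo X) - #(primesTo (X / 8))) ≤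
        (#{p ∈ primesTo X ×ˢ primesTo X | (X : ℝ) / 16 ≤ |(p.1 : ℝ) - p.2|} : ℝ) := by
      rw [← hsd]
      exact_mod_cast hcard
    unfold far
    have hP0 : (0 : ℝ) < #(primesTo X) := by linarith [mul_pos (show (0 : ℝ) < 13 / 20 by norm_num) hf0]
    rw [le_div_iff₀ (by positivity)]
    refine le_trans ?_ hcard'
    have h7 : (#(primesTo X) : ℝ) / 50 ≤ #(primesTo (X / 16)) := by linarith
    have h8 : (#(primesTo X) : ℝ) / 2 ≤ #(primesTo X) - #(primesTo (X / 8)) := by linarith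
    calc (1 / 100 : ℝ) * (#(primesTo X) : ℝ) ^ 2 = (#(primesTo X) : ℝ) / 50 * ((#(primesTo X) : ℝ) / 2) := by ring
      _ ≤ _ := mul_le_mul h7 h8 (by positivity) (Nat.cast_nonneg _)
  obtain ⟨X₀, h⟩ := eventually_atTop.1 hev
  exact ⟨max X₀ 3, le_max_right _ _, fun X hX => h X (le_trans (le_max_left _ _) hX)⟩

lemma far_all : ∃ C : ℝ, 1 ≤ C ∧ ∀ X : ℕ, 3 ≤ X → ∃ D : ℝ, 0 < D ∧ 1 / 100 ≤ far (primesTo X) D ∧ X / D ≤ C := by
  obtain ⟨X₀, h3, hX₀⟩ := primes_far
  have h3' : (3 : ℝ) ≤ X₀ := by exact_mod_cast h3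
  refine ⟨16 + 2 * X₀, by linarith, fun X hX => ?_⟩
  have hX3 : (3 : ℝ) ≤ X := by exact_mod_cast hX
  rcases le_total X₀ X with h | h
  · refine ⟨(X : ℝ) / 16, by positivity, hX₀ X h, ?_⟩
    have : (X : ℝ) / (X / 16) = 16 := by
      field_simp
    rw [this]
    linarith
  · refine ⟨((2 : ℕ) : ℝ) / 4, by norm_num, ?_, ?_⟩
    · have h1 : 2 ≤ #(primesTo X) := by
        have h2 : ({2, 3} : Finset ℕ) ⊆ primesTo X := by
          intro p hp
          rw [mem_insert, mem_singleton] at hp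
          rw [mem_primesTo]
          rcases hp with rfl | rfl
          · exact ⟨by omega, Nat.prime_two⟩
          · exact ⟨hX, Nat.prime_three⟩
        exact (card_le_card h2)
      have := far_quarter le_rfl h1
      linarith
    · have h1 : (X : ℝ) ≤ X₀ := by exact_mod_cast h
      have h2 : (X : ℝ) / (((2 : ℕ) : ℝ) / 4) = 2 * X := by
        push_cast
        field_simp
        norm_num
      rw [h2]
      linarith

/-- for the exponents `e` the sum of the proportions of the far pairs is at least `s / 100` -/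
lemma sum_far {r s X : ℕ} {D : ℝ} (h : 1 / 100 ≤ far (primesTo X) D) (T : Finset (Fin r)) (hT : s ≤ #T) :
    (s : ℝ) / 100 ≤ ∑ _i ∈ T, far (primesTo X) D := by
  rw [sum_const, nsmul_eq_mul]
  have h1 : (s : ℝ) ≤ #T := by exact_mod_cast hT
  have h2 : 0 ≤ far (primesTo X) D := far_nonneg _ _
  nlinarith

lemma sqrt_hundred (s : ℕ) : √((s : ℝ) / 100) = √s / 10 := by
  rw [Real.sqrt_div' _ (by norm_num)]
  congr 1
  rw [show (100 : ℝ) = 10 ^ 2 by norm_num, Real.sqrt_sq (by norm_num)]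

lemma prod_primes (r X : ℕ) : ∏ _i : Fin r, (#(primesTo X) : ℝ) = (#(primesTo X) : ℝ) ^ r := by
  rw [prod_const, card_univ, Fintype.card_fin]

lemma one_le_log {X : ℕ} (hX : 3 ≤ X) : 1 ≤ Real.log X := by
  have hX3 : (3 : ℝ) ≤ X := by exact_mod_cast hX
  rw [Real.le_log_iff_exp_le (by linarith)]
  have := Real.exp_one_lt_d9
  linarith

lemma primes_bounds {X : ℕ} : ∀ p ∈ primesTo X, 2 ≤ p ∧ p ≤ X := fun p hp => by
  rw [mem_primesTo] at hp
  exact ⟨hp.2.two_le, hp.1⟩

open Classical in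
theorem primes_relations : ∃ C : ℝ, 0 < C ∧ ∀ X r s : ℕ, 3 ≤ X → 1 ≤ s → ∀ (M : Finset (Fin r → ℤ)) (β : (Fin r → ℤ) → ℝ),
    (∀ m ∈ M, 0 < β m) → (∀ m ∈ M, ∀ m' ∈ M, m ≠ m' → s ≤ #{i | m i ≠ m' i}) → ∀ K : ℝ, 1 ≤ K →
    (#{p ∈ Fintype.piFinset (fun _ : Fin r => primesTo X) | ¬ Dominated M β K p} : ℝ) * √s ≤
      C * (1 + Real.log K) * (#M : ℝ) ^ 2 * Real.log X * (#(primesTo X) : ℝ) ^ r := by
  obtain ⟨C, hC, hC2⟩ := far_all
  refine ⟨120 * (1 + C), by linarith, fun X r s hX hs M β hβ hM K hK => ?_⟩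
  obtain ⟨D, hD, hfar, hXD⟩ := hC2 X hX
  have hl := one_le_log hX
  have hlK : 0 ≤ Real.log K := Real.log_nonneg hK
  have hs0 : (0 : ℝ) < s := by exact_mod_cast (by omega : 0 < s)
  have h1 := relations (P := fun _ : Fin r => primesTo X) (Q := (s : ℝ) / 100) (fun _ => primes_bounds) (by omega) hD
    (by positivity) M β hβ (fun m hm m' hm' hne => sum_far hfar _ (hM m hm m' hm' hne)) hK
  rw [sqrt_hundred, prod_primes] at h1
  have h2 : (X : ℝ) * Real.log X / D ≤ C * Real.log X := by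
    have : (X : ℝ) * Real.log X / D = X / D * Real.log X := by ring
    rw [this]
    exact mul_le_mul_of_nonneg_right hXD (by linarith)
  have h3 : 12 * (1 + (1 + Real.log K) * (X * Real.log X / D)) ≤ 12 * ((1 + C) * (1 + Real.log K) * Real.log X) := by
    have h4 : (1 + Real.log K) * (X * Real.log X / D) ≤ (1 + Real.log K) * (C * Real.log X) :=
      mul_le_mul_of_nonneg_left h2 (by linarith)
    have h5 : 1 ≤ (1 + Real.log K) * Real.log X := by nlinarith
    nlinarith
  have h6 : 0 ≤ (#M : ℝ) ^ 2 * (#(primesTo X) : ℝ) ^ r := by positivity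
  have h7 : 12 * (1 + (1 + Real.log K) * (X * Real.log X / D)) * (#M : ℝ) ^ 2 * (#(primesTo X) : ℝ) ^ r ≤
      12 * ((1 + C) * (1 + Real.log K) * Real.log X) * ((#M : ℝ) ^ 2 * (#(primesTo X) : ℝ) ^ r) := by
    rw [mul_assoc]
    exact mul_le_mul_of_nonneg_right h3 h6
  linarith

open Classical in
theorem primes_small_ball : ∃ C : ℝ, 0 < C ∧ ∀ X r s : ℕ, 3 ≤ X → 1 ≤ s → ∀ e : Fin r → ℤ, s ≤ #{i | e i ≠ 0} →
    ∀ y L : ℝ, 0 < y → 0 ≤ L →
    (#{p ∈ Fintype.piFinset (fun _ : Fin r => primesTo X) | y ≤ val e p ∧ val e p ≤ Real.exp L * y} : ℝ) * √s ≤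
      C * (1 + L * Real.log X) * (#(primesTo X) : ℝ) ^ r := by
  obtain ⟨C, hC, hC2⟩ := far_all
  refine ⟨30 * C, by linarith, fun X r s hX hs e he y L hy hL => ?_⟩
  obtain ⟨D, hD, hfar, hXD⟩ := hC2 X hX
  have hl := one_le_log hX
  have hs0 : (0 : ℝ) < s := by exact_mod_cast (by omega : 0 < s)
  have h1 := small_ball (P := fun _ : Fin r => primesTo X) (Q := (s : ℝ) / 100) (fun _ => primes_bounds) (by omega) hD
    (by positivity) e (sum_far hfar _ he) hy hL
  rw [sqrt_hundred, prod_primes] at h1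
  have h2 : (X : ℝ) * Real.log X / D ≤ C * Real.log X := by
    have : (X : ℝ) * Real.log X / D = X / D * Real.log X := by ring
    rw [this]
    exact mul_le_mul_of_nonneg_right hXD (by linarith)
  have h3 : 3 * (1 + L * (X * Real.log X / D)) ≤ 3 * (C * (1 + L * Real.log X)) := by
    have h4 : L * (X * Real.log X / D) ≤ L * (C * Real.log X) := mul_le_mul_of_nonneg_left h2 hL
    nlinarith
  have h6 : 0 ≤ (#(primesTo X) : ℝ) ^ r := by positivity
  have h7 := mul_le_mul_of_nonneg_right h3 h6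
  linarith

/-- the exponents of a monomial as integers -/
def expo {r : ℕ} (m : Fin r →₀ ℕ) : Fin r → ℤ := fun i => (m i : ℤ)

lemma expo_inj {r : ℕ} : Function.Injective (expo (r := r)) := by
  intro m m' h
  ext i
  have := congrFun h i
  unfold expo at this
  exact_mod_cast this

open Classical in
/-- a point with domination is not a zero of a polynomial with moderate coefficients -/
lemma not_zero {r : ℕ} {M : Finset (Fin r →₀ ℕ)} {K : ℝ} {p : Fin r → ℕ} (hp : ∀ i, 2 ≤ p i)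
    (h : Dominated (M.image expo) (fun _ => 1) K p) {F : MvPolynomial (Fin r) ℂ} (hF : F ≠ 0) (hM : F.support ⊆ M)
    (hc : ∀ m, Moderate K (F.coeff m)) : MvPolynomial.eval (fun i => ((Real.log (p i) : ℝ) : ℂ)) F ≠ 0 := by
  intro h0
  obtain ⟨m, hm⟩ := MvPolynomial.ne_zero_iff.1 hF
  obtain ⟨c, hcd⟩ : ∃ c : (Fin r → ℤ) → ℂ, c = fun e => F.coeff (Finsupp.equivFunOnFinite.symm (fun i => (e i).toNat)) :=
    ⟨_, rfl⟩
  have hce : ∀ m : Fin r →₀ ℕ, c (expo m) = F.coeff m := by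
    intro m
    rw [hcd]
    simp only
    congr 1
    ext i
    simp [expo]
  have hsum : ∑ m' ∈ M.image expo, c m' * (((fun _ => 1 : (Fin r → ℤ) → ℝ) m' * val m' p : ℝ) : ℂ) =
      MvPolynomial.eval (fun i => ((Real.log (p i) : ℝ) : ℂ)) F := by
    rw [sum_image (fun _ _ _ _ h => expo_inj h), MvPolynomial.eval_eq']
    have : ∑ d ∈ F.support, F.coeff d * ∏ i, ((Real.log (p i) : ℝ) : ℂ) ^ d i =
        ∑ d ∈ M, F.coeff d * ∏ i, ((Real.log (p i) : ℝ) : ℂ) ^ d i := by
      refine sum_subset hM fun d _ hd => ?_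
      rw [MvPolynomial.notMem_support_iff.1 hd, zero_mul]
    rw [this]
    refine sum_congr rfl fun d _ => ?_
    rw [hce]
    unfold val expo
    push_cast
    simp
  have hmM : m ∈ M := hM (MvPolynomial.mem_support_iff.2 hm)
  have h1 := h c (fun e he => by
    rw [mem_image] at he
    obtain ⟨d, _, rfl⟩ := he
    rw [hce]
    exact hc d) (expo m) (mem_image_of_mem _ hmM)
  rw [hsum, h0, norm_zero, hce] at h1
  have h2 : 0 < val (expo m) p := by
    unfold val
    refine prod_pos fun i _ => zpow_pos (Real.log_pos ?_) _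
    have : (2 : ℝ) ≤ p i := by exact_mod_cast hp i
    linarith
  have h3 : 0 < ‖F.coeff m‖ := norm_pos_iff.2 hm
  have h4 : 0 < ‖F.coeff m‖ * (1 * val (expo m) p) / 2 := by positivity
  linarith

open Classical in
theorem primes_polynomials : ∃ C : ℝ, 0 < C ∧ ∀ X r s H : ℕ, 3 ≤ X → 1 ≤ s → 1 ≤ H → ∀ M : Finset (Fin r →₀ ℕ),
    (∀ m ∈ M, ∀ m' ∈ M, m ≠ m' → s ≤ #{i | m i ≠ m' i}) →
    (#{p ∈ Fintype.piFinset (fun _ : Fin r => primesTo X) | ∃ F : MvPolynomial (Fin r) ℂ, F ≠ 0 ∧ F.support ⊆ M ∧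
      (∀ m, HeightLe H (F.coeff m)) ∧ MvPolynomial.eval (fun i => ((Real.log (p i) : ℝ) : ℂ)) F = 0} : ℝ) * √s ≤
      C * (1 + Real.log H) * (#M : ℝ) ^ 2 * Real.log X * (#(primesTo X) : ℝ) ^ r := by
  obtain ⟨C, hC, hC2⟩ := primes_relations
  refine ⟨2 * C, by linarith, fun X r s H hX hs hH M hM => ?_⟩
  have hH1 : (1 : ℝ) ≤ H := by exact_mod_cast hH
  have hlH : 0 ≤ Real.log H := Real.log_nonneg hH1
  have hl := one_le_log hX
  have h1 := hC2 X r s hX hs (M.image expo) (fun _ => 1) (fun _ _ => one_pos) (by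
    intro e he e' he' hne
    rw [mem_image] at he he'
    obtain ⟨m, hm, rfl⟩ := he
    obtain ⟨m', hm', rfl⟩ := he'
    refine (hM m hm m' hm' (fun h => hne (by rw [h]))).trans (le_of_eq ?_)
    congr 1
    refine filter_congr fun i _ => ?_
    unfold expo
    rw [Ne, Ne, Nat.cast_inj]) ((H : ℝ) + 1) (by linarith)
  rw [card_image_of_injective _ expo_inj] at h1
  have h2 : #{p ∈ Fintype.piFinset (fun _ : Fin r => primesTo X) | ∃ F : MvPolynomial (Fin r) ℂ, F ≠ 0 ∧ F.support ⊆ M ∧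
      (∀ m, HeightLe H (F.coeff m)) ∧ MvPolynomial.eval (fun i => ((Real.log (p i) : ℝ) : ℂ)) F = 0} ≤
      #{p ∈ Fintype.piFinset (fun _ : Fin r => primesTo X) |
        ¬ Dominated (M.image expo) (fun _ => 1) ((H : ℝ) + 1) p} := by
    refine card_le_card fun p hp => ?_
    rw [mem_filter] at hp ⊢
    refine ⟨hp.1, fun hdom => ?_⟩
    obtain ⟨F, hF, hFM, hFc, hF0⟩ := hp.2
    exact not_zero (fun i => (primes_bounds _ (Fintype.mem_piFinset.1 hp.1 i)).1) hdom hF hFM
      (fun m => moderate_of_height (hFc m)) hF0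
  refine (mul_le_mul_of_nonneg_right (Nat.cast_le.2 h2) (Real.sqrt_nonneg _)).trans (h1.trans ?_)
  have h3 : 1 + Real.log ((H : ℝ) + 1) ≤ 2 * (1 + Real.log H) := by
    have h4 : Real.log ((H : ℝ) + 1) ≤ Real.log (2 * H) := Real.log_le_log (by linarith) (by linarith)
    rw [Real.log_mul (by norm_num) (by linarith)] at h4
    have := Real.log_two_lt_d9
    linarith
  have h5 : 0 ≤ C * ((#M : ℝ) ^ 2 * Real.log X * (#(primesTo X) : ℝ) ^ r) := by positivity
  have h6 := mul_le_mul_of_nonneg_right h3 h5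
  linarith

end primes

open Classical in
theorem result :
    -- (A) the primes up to `X`
    (∃ C : ℝ, 0 < C ∧ ∀ X r s : ℕ, 3 ≤ X → 1 ≤ s →
      -- (A1) almost all tuples of primes are not zeros of polynomials with monomials in `M`
      (∀ M : Finset (Fin r →₀ ℕ), (∀ m ∈ M, ∀ m' ∈ M, m ≠ m' → s ≤ #{i | m i ≠ m' i}) → ∀ H : ℕ, 1 ≤ H →
        (#{p ∈ Fintype.piFinset (fun _ : Fin r => primesTo X) | ∃ F : MvPolynomial (Fin r) ℂ, F ≠ 0 ∧
          F.support ⊆ M ∧ (∀ m, HeightLe H (F.coeff m)) ∧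
          MvPolynomial.eval (fun i => ((Real.log (p i) : ℝ) : ℂ)) F = 0} : ℝ) * √s ≤
          C * (1 + Real.log H) * (#M : ℝ) ^ 2 * Real.log X * (#(primesTo X) : ℝ) ^ r) ∧
      -- (A2) the linear combinations of monomials are even as large as their terms
      (∀ (M : Finset (Fin r → ℤ)) (β : (Fin r → ℤ) → ℝ), (∀ m ∈ M, 0 < β m) →
        (∀ m ∈ M, ∀ m' ∈ M, m ≠ m' → s ≤ #{i | m i ≠ m' i}) → ∀ K : ℝ, 1 ≤ K →
        (#{p ∈ Fintype.piFinset (fun _ : Fin r => primesTo X) | ¬ Dominated M β K p} : ℝ) * √s ≤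
          C * (1 + Real.log K) * (#M : ℝ) ^ 2 * Real.log X * (#(primesTo X) : ℝ) ^ r) ∧
      -- (A3) few monomials have about the same size
      (∀ e : Fin r → ℤ, s ≤ #{i | e i ≠ 0} → ∀ y L : ℝ, 0 < y → 0 ≤ L →
        (#{p ∈ Fintype.piFinset (fun _ : Fin r => primesTo X) | y ≤ val e p ∧ val e p ≤ Real.exp L * y} : ℝ) * √s ≤
          C * (1 + L * Real.log X) * (#(primesTo X) : ℝ) ^ r)) ∧
    -- (B) arbitrary sets of integers
    (∀ (r : ℕ) (P : Fin r → Finset ℕ) (X : ℕ), 2 ≤ X → (∀ i, ∀ p ∈ P i, 2 ≤ p ∧ p ≤ X) →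
      ∀ D Q : ℝ, 0 < D → 0 < Q →
      (∀ (M : Finset (Fin r → ℤ)) (β : (Fin r → ℤ) → ℝ), (∀ m ∈ M, 0 < β m) →
        (∀ m ∈ M, ∀ m' ∈ M, m ≠ m' → Q ≤ ∑ i with m i ≠ m' i, far (P i) D) → ∀ K : ℝ, 1 ≤ K →
        (#{p ∈ Fintype.piFinset P | ¬ Dominated M β K p} : ℝ) * √Q ≤
          12 * (1 + (1 + Real.log K) * (X * Real.log X / D)) * (#M : ℝ) ^ 2 * ∏ i, (#(P i) : ℝ)) ∧
      (∀ e : Fin r → ℤ, Q ≤ ∑ i with e i ≠ 0, far (P i) D → ∀ K : ℝ, 1 ≤ K → ∀ E ⊆ Fintype.piFinset P,
        ∃ G ⊆ E, (#E : ℝ) * √Q ≤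
            #G * (12 * (1 + (1 + Real.log K) * (X * Real.log X / D)) * ∏ i, (#(P i) : ℝ)) ∧
          ∀ c : (Fin r → ℕ) → ℂ, (∀ a ∈ G, Moderate K (c a)) → ∀ a ∈ G,
            ‖c a‖ * val e a / 2 ≤ ‖∑ b ∈ G, c b * ((val e b : ℝ) : ℂ)‖)) := by
  obtain ⟨C1, hC1, h1⟩ := primes_polynomials
  obtain ⟨C2, hC2, h2⟩ := primes_relations
  obtain ⟨C3, hC3, h3⟩ := primes_small_ball
  refine ⟨⟨C1 + C2 + C3, by linarith, fun X r s hX hs => ⟨?_, ?_, ?_⟩⟩, ?_⟩
  · intro M hM H hH
    have hH1 : (1 : ℝ) ≤ H := by exact_mod_cast hH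
    have hlH : 0 ≤ Real.log H := Real.log_nonneg hH1
    have hl := one_le_log hX
    refine (h1 X r s H hX hs hH M hM).trans ?_
    have h5 : 0 ≤ (1 + Real.log H) * ((#M : ℝ) ^ 2 * Real.log X * (#(primesTo X) : ℝ) ^ r) := by positivity
    nlinarith
  · intro M β hβ hM K hK
    have hlK : 0 ≤ Real.log K := Real.log_nonneg hK
    have hl := one_le_log hX
    refine (h2 X r s hX hs M β hβ hM K hK).trans ?_
    have h5 : 0 ≤ (1 + Real.log K) * ((#M : ℝ) ^ 2 * Real.log X * (#(primesTo X) : ℝ) ^ r) := by positivity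
    nlinarith
  · intro e he y L hy hL
    have hl := one_le_log hX
    refine (h3 X r s hX hs e he y L hy hL).trans ?_
    have h5 : 0 ≤ (1 + L * Real.log X) * (#(primesTo X) : ℝ) ^ r := by positivity
    nlinarith
  · intro r P X hX hP D Q hD hQ
    refine ⟨?_, ?_⟩
    · intro M β hβ hM K hK
      exact relations hP hX hD hQ M β hβ hM hK
    · intro e he K hK E hE
      exact dense_sets hP hX hD hQ e he hK E hE

end Pool.Agent.Results.MP_d171e3_nt.ManyPrimesFewTerms
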